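import Pool.Agent.Helper45.LGB.St

/-!
# Project LGB, module DSB: long words lower the filtration
-/

set_option autoImplicit false

namespace Pool.Agent.Helper99.LGB

open Pool.Agent.Helper45.LGB

theorem dsb_lin {p : ℕ} {ι V : Type} [AddCommGroup V] [Module (ZMod p) V]
    (f : ι → Module.End (ZMod p) V) (u : List ι) :
    ∃ T : V →ₗ[ZMod p] V, ∀ w, T w = act f u w := by
  induction u with
  | nil => exact ⟨LinearMap.id, fun w => rfl⟩
  | cons y u ih =>
    obtain ⟨T, hT⟩ := ih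
    exact ⟨T.comp (f y), fun w => hT (f y w)⟩

theorem dsb_prod {p : ℕ} {V : Type} [AddCommGroup V] [Module (ZMod p) V]
    (W' : Submodule (ZMod p) V) (L : List (Module.End (ZMod p) V))
    (hL : ∀ ν ∈ L, ∀ w ∈ W', ν w ∈ W') : ∀ w ∈ W', L.prod w ∈ W' := by
  induction L with
  | nil => intro w hw; simpa using hw
  | cons a L ih =>
    intro w hw
    rw [List.prod_cons]
    exact hL a (by simp) _ (ih (fun ν hν => hL ν (by simp [hν])) w hw)

theorem dsb_zip {α β γ : Type*} (g : α → β → γ) : ∀ (us : List α) (l : List β),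
    us.length = l.length → ∀ u' ∈ us,
    ∃ (L₁ L₂ : List γ) (ν : β), ν ∈ l ∧ List.zipWith g us l = L₁ ++ g u' ν :: L₂
  | [], _, _, u', h => absurd h (by simp)
  | a :: us, [], h, _, _ => absurd h (by simp)
  | a :: us, b :: l, h, u', hu' => by
    rcases List.mem_cons.1 hu' with rfl | hu'
    · exact ⟨[], List.zipWith g us l, b, by simp, by simp⟩
    · obtain ⟨L₁, L₂, ν, hν, he⟩ := dsb_zip g us l (by simpa using h) u' hu'
      exact ⟨g a b :: L₁, L₂, ν, by simp [hν], by simp [he]⟩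

theorem dsb_mem {α β γ : Type*} (g : α → β → γ) : ∀ (us : List α) (l : List β),
    ∀ x ∈ List.zipWith g us l, ∃ u' ∈ us, ∃ ν ∈ l, x = g u' ν
  | [], _, x, h => absurd h (by simp)
  | a :: us, [], x, h => absurd h (by simp)
  | a :: us, b :: l, x, h => by
    rw [List.zipWith_cons_cons, List.mem_cons] at h
    rcases h with rfl | h
    · exact ⟨a, by simp, b, by simp, rfl⟩
    · obtain ⟨u', hu', ν, hν, he⟩ := dsb_mem g us l x h
      exact ⟨u', by simp [hu'], ν, by simp [hν], he⟩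

theorem hDSB (hPKU : StPKU) (hLST : StLST) (hFIL : StFIL) (hDSA : StDSA) : StDSB := by
  intro p ι E V _ _ f Y Z W W' v r q hW'W hSW hSW' hv hZY hZv hK k u hu hPk w hw
  obtain ⟨T, hT⟩ := dsb_lin f u
  obtain ⟨hL1, -, -, -, hL5, -, -, hL8, hL9⟩ := hLST p ι V f Y
  obtain ⟨hF1, hF2, -, -, hF5, -⟩ := hFIL p ι V f Y W W' v hW'W hSW hSW' hv
  obtain ⟨-, -, -, hP4, -⟩ := hPKU ι E
  have huY : ∀ i ∈ u, i ∈ Y := fun i hi => hZY (hu i hi)
  have hW'M : W' ≤ Mh f Y v W' k := by
    cases k with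
    | zero => exact le_rfl
    | succ k => exact (hF2 k).1
  suffices h : Mf f Y v W' k ≤ (Mh f Y v W' k).comap T by
    have := h hw
    rw [Submodule.mem_comap, hT] at this
    exact this
  refine sup_le (Submodule.span_le.2 ?_) ?_
  swap
  · intro x hx
    rw [Submodule.mem_comap, hT]
    exact hW'M (hL8 W' hSW' u huY x hx)
  rintro _ ⟨l, hlk, hlL, rfl⟩
  show T (l.prod v) ∈ Mh f Y v W' k
  rw [hT]
  refine (sup_le (Submodule.span_le.2 ?_) hW'M :
    Submodule.span (ZMod p) {z | ∃ us : List (List ι),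
      us.length = l.length ∧ (∀ u' ∈ us, ∀ i ∈ u', i ∈ u) ∧ (∀ i ∈ u, ∃ u' ∈ us, i ∈ u') ∧
      z = (List.zipWith (ad f) us l).prod v} ⊔ W' ≤ Mh f Y v W' k)
    (hDSA p ι V f Y Z W' v hZY hSW' hZv l hlL u hu)
  rintro _ ⟨us, hlen, husu, hcov, rfl⟩
  have hlam : ∀ x ∈ List.zipWith (ad f) us l, Lam f Y x := by
    intro x hx
    obtain ⟨u', hu', ν, hν, rfl⟩ := dsb_mem (ad f) us l x hx
    exact hL5 u' ν (fun i hi => huY i (husu u' hu' i hi)) (hlL ν hν)
  have hzl : (List.zipWith (ad f) us l).length = l.length := by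
    rw [List.length_zipWith, hlen, min_self]
  show (List.zipWith (ad f) us l).prod v ∈ Mh f Y v W' k
  rcases Nat.lt_or_ge l.length k with hlt | hge
  · obtain ⟨k', rfl⟩ : ∃ k', k = k' + 1 := ⟨k - 1, by omega⟩
    exact Submodule.mem_sup_left (Submodule.subset_span ⟨_, by omega, hlam, rfl⟩)
  · have hlk' : l.length = k := le_antisymm hlk hge
    obtain ⟨u', hu', hPu'⟩ := hP4 r q (ltr u) us (by rw [hlen, hlk']; exact hPk)
      (fun i hi => hcov i hi)
    obtain ⟨L₁, L₂, ν, hν, he⟩ := dsb_zip (ad f) us l hlen u' hu'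
    have hlpos : 0 < l.length := List.length_pos_of_mem hν
    obtain ⟨k', rfl⟩ : ∃ k', k = k' + 1 := ⟨k - 1, by omega⟩
    have hu'Z : ∀ i ∈ u', i ∈ Z := fun i hi => hu i (husu u' hu' i hi)
    have hx : (ad f u' ν) v ∈ W' := by
      have h1 := hL9 Z W' v hZY hSW' hZv u' hu'Z ν (hlL ν hν)
      have h2 : act f u' (ν v) ∈ W' := hK u' hu'Z hPu' (ν v)
        (Submodule.mem_sup_left (Submodule.subset_span ⟨ν, hlL ν hν, rfl⟩))
      have := W'.add_mem h1 h2
      rwa [sub_add_cancel] at this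
    have hperm : (List.zipWith (ad f) us l).Perm ((L₁ ++ L₂) ++ [ad f u' ν]) := by
      rw [he]
      have h1 : (L₁ ++ ad f u' ν :: L₂).Perm (ad f u' ν :: (L₁ ++ L₂)) := List.perm_middle
      exact h1.trans (List.perm_append_singleton _ _).symm
    have h5 := hF5 k' (List.zipWith (ad f) us l) ((L₁ ++ L₂) ++ [ad f u' ν]) hlam hperm (by omega)
    have h6 : ((L₁ ++ L₂) ++ [ad f u' ν]).prod v ∈ W' := by
      rw [List.prod_append, List.prod_singleton]
      refine dsb_prod W' (L₁ ++ L₂) ?_ _ hx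
      intro μ hμ x hx
      refine hL1 W' hSW' μ (hlam μ ?_) x hx
      rw [he]
      rcases List.mem_append.1 hμ with h | h
      · exact List.mem_append_left _ h
      · exact List.mem_append_right _ (List.mem_cons_of_mem _ h)
    have h7 := (Mf f Y v W' k').add_mem h5 ((hF2 k').1 h6)
    rwa [sub_add_cancel] at h7

end Pool.Agent.Helper99.LGB
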